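import Pool.Agent.H54Waring.Final

set_option autoImplicit false

namespace Pool.Agent.Results.MP_45c923_nt.SameOrder

open Finset

/-- the set of sums of s k-th powers of nonnegative integers -/
def SumsOfPowers (k s : ℕ) : Set ℕ := {n | ∃ x : Fin s → ℕ, n = ∑ i, x i ^ k}

/-- positive lower asymptotic density -/
def PositiveLowerDensity (A : Set ℕ) : Prop := ∃ δ : ℝ, 0 < δ ∧ ∃ N0 : ℕ, ∀ N : ℕ, N0 ≤ N →
  δ * N ≤ (Nat.card {n : ℕ // n < N ∧ n ∈ A} : ℝ)

/-- every sufficiently large integer is in the set -/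
def ContainsAllLarge (A : Set ℕ) : Prop := ∃ N1 : ℕ, ∀ n : ℕ, N1 ≤ n → n ∈ A

/-- the complement has o(N) elements below N -/
def DensityOne (A : Set ℕ) : Prop := ∀ ε : ℝ, 0 < ε → ∃ N1 : ℕ, ∀ N : ℕ, N1 ≤ N →
  (Nat.card {n : ℕ // n < N ∧ n ∉ A} : ℝ) ≤ ε * N

/-- Waring's G(k): the least s such that every large integer is a sum of s k-th powers (⊤ if there is none) -/
noncomputable def G (k : ℕ) : ℕ∞ := ⨅ (s : ℕ) (_ : ContainsAllLarge (SumsOfPowers k s)), (s : ℕ∞)

/-- D(k): the least s such that the sums of s k-th powers have positive lower density (⊤ if there is none) -/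
noncomputable def D (k : ℕ) : ℕ∞ := ⨅ (s : ℕ) (_ : PositiveLowerDensity (SumsOfPowers k s)), (s : ℕ∞)

/-- counting: s < k k-th powers do not have positive lower density -/
lemma le_of_density {k s : ℕ} (h : PositiveLowerDensity (SumsOfPowers k s)) : k ≤ s := by
  by_contra hlt
  push Not at hlt
  obtain ⟨δ, hδ, N0, hN0⟩ := h
  obtain ⟨M0, hM0⟩ := exists_nat_gt (1 / δ)
  obtain ⟨M, hM⟩ : ∃ M : ℕ, M = M0 + N0 + 1 := ⟨_, rfl⟩
  have hM1 : 1 ≤ M := by omega
  have hk : 1 ≤ k := by omega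
  have h1 : N0 ≤ M ^ k := le_trans (by omega) (Nat.le_self_pow (by omega) M)
  have h2 := hN0 (M ^ k) h1
  have h3 : Nat.card {n : ℕ // n < M ^ k ∧ n ∈ SumsOfPowers k s} ≤ M ^ s := by
    have hsurj : Function.Surjective (fun x : {x : Fin s → Fin M // ∑ i, (x i : ℕ) ^ k < M ^ k} =>
        (⟨∑ i, (x.1 i : ℕ) ^ k, x.2, ⟨fun i => (x.1 i : ℕ), rfl⟩⟩ :
          {n : ℕ // n < M ^ k ∧ n ∈ SumsOfPowers k s})) := by
      rintro ⟨n, hn, x, hx⟩
      have hxi : ∀ i, x i < M := by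
        intro i
        by_contra hi
        push Not at hi
        have h4 : M ^ k ≤ x i ^ k := Nat.pow_le_pow_left hi k
        have h5 : x i ^ k ≤ ∑ j, x j ^ k :=
          Finset.single_le_sum (f := fun j => x j ^ k) (fun j _ => Nat.zero_le _) (mem_univ i)
        omega
      refine ⟨⟨fun i => ⟨x i, hxi i⟩, ?_⟩, ?_⟩
      · show ∑ i, (x i) ^ k < M ^ k
        rw [← hx]; exact hn
      · apply Subtype.ext
        show ∑ i, (x i) ^ k = n
        exact hx.symm
    have h4 := Nat.card_le_card_of_surjective _ hsurj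
    have h5 : Nat.card {x : Fin s → Fin M // ∑ i, (x i : ℕ) ^ k < M ^ k} ≤ Nat.card (Fin s → Fin M) :=
      Nat.card_le_card_of_injective _ Subtype.val_injective
    have h6 : Nat.card (Fin s → Fin M) = M ^ s := by
      rw [Nat.card_eq_fintype_card, Fintype.card_fun, Fintype.card_fin, Fintype.card_fin]
    omega
  have h4 : M ^ s * M ≤ M ^ k := by
    rw [← pow_succ]
    exact Nat.pow_le_pow_right hM1 hlt
  have h5 : δ * ((M : ℝ) ^ k) ≤ (M : ℝ) ^ s := by
    have : δ * ((M ^ k : ℕ) : ℝ) ≤ ((M ^ s : ℕ) : ℝ) := h2.trans (by exact_mod_cast h3)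
    push_cast at this
    exact this
  have h6 : (M : ℝ) ^ s * M ≤ (M : ℝ) ^ k := by exact_mod_cast h4
  have hMpos : (0 : ℝ) < (M : ℝ) ^ s := by positivity
  have h7 : δ * ((M : ℝ) ^ s * M) ≤ (M : ℝ) ^ s := (mul_le_mul_of_nonneg_left h6 hδ.le).trans h5
  have h8 : δ * M ≤ 1 := by
    have : (M : ℝ) ^ s * (δ * M) ≤ (M : ℝ) ^ s * 1 := by linarith
    exact le_of_mul_le_mul_left this hMpos
  have h9 : (M0 : ℝ) < M := by
    have : M0 < M := by omega
    exact_mod_cast this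
  rw [div_lt_iff₀ hδ] at hM0
  nlinarith

theorem result : ∀ k : ℕ, 2 ≤ k →
    ((k : ℕ∞) ≤ D k ∧ D k ≤ G k ∧ G k ≤ 2 * D k + 4 * k ∧ G k ≤ 6 * D k) ∧
    (∀ s : ℕ, PositiveLowerDensity (SumsOfPowers k s) →
      DensityOne (SumsOfPowers k (s + 4 * k)) ∧ ContainsAllLarge (SumsOfPowers k (2 * s + 4 * k))) := by
  intro k hk
  have hmain : ∀ s : ℕ, PositiveLowerDensity (SumsOfPowers k s) →
      DensityOne (SumsOfPowers k (s + 4 * k)) ∧ ContainsAllLarge (SumsOfPowers k (2 * s + 4 * k)) :=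
    fun s h => H54Waring.final_waring H54Waring.sDENS H54Waring.sMAIN k s hk h
  refine ⟨⟨le_iInf₂ fun s hs => by exact_mod_cast le_of_density hs,
    le_iInf₂ fun s hs => iInf₂_le s (H54Waring.posLowerDensity_of_allLarge hs), ?_⟩, hmain⟩
  by_cases hex : ∃ s, PositiveLowerDensity (SumsOfPowers k s)
  · classical
    obtain ⟨s, hs, hmin⟩ : ∃ s, PositiveLowerDensity (SumsOfPowers k s) ∧
        ∀ t, PositiveLowerDensity (SumsOfPowers k t) → s ≤ t :=
      ⟨Nat.find hex, Nat.find_spec hex, fun t ht => Nat.find_min' hex ht⟩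
    have hD : D k = (s : ℕ∞) :=
      le_antisymm (iInf₂_le s hs) (le_iInf₂ fun t ht => by exact_mod_cast hmin t ht)
    have hG : G k ≤ ((2 * s + 4 * k : ℕ) : ℕ∞) := iInf₂_le (2 * s + 4 * k) (hmain s hs).2
    have hks := le_of_density hs
    rw [hD]
    constructor
    · refine hG.trans ?_
      push_cast
      exact le_rfl
    · refine hG.trans ?_
      have : 2 * s + 4 * k ≤ 6 * s := by omega
      exact_mod_cast this
  · have hD : D k = ⊤ := by
      unfold D
      rw [iInf_eq_top]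
      intro s
      rw [iInf_eq_top]
      intro hs
      exact absurd ⟨s, hs⟩ hex
    rw [hD]
    constructor
    · simp
    · have h6 : (6 : ℕ∞) * ⊤ = ⊤ := ENat.mul_top (by norm_num)
      rw [h6]; exact le_top

end Pool.Agent.Results.MP_45c923_nt.SameOrder
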